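import Mathlib
import Pool.Agent.RPC.Final

set_option autoImplicit false

universe u v w

namespace Pool.Agent.Results.MP_cad4a2_al.RadicalProduct

/-- `K` is a normal subgroup of `L` and `L / K` is cyclic. -/
def CyclicStep {G : Type u} [Group G] (K L : Subgroup G) : Prop :=
  K ≤ L ∧ ∃ _ : (K.subgroupOf L).Normal, IsCyclic (L ⧸ K.subgroupOf L)

/-- A group is polycyclic if it has a finite subnormal series with cyclic factors. -/
def IsPolycyclic (G : Type u) [Group G] : Prop :=
  ∃ (n : ℕ) (H : ℕ → Subgroup G), H 0 = ⊥ ∧ H n = ⊤ ∧ ∀ i < n, CyclicStep (H i) (H (i + 1))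

/-- A group is locally nilpotent if its finitely generated subgroups are nilpotent. -/
def IsLocallyNilpotent (G : Type u) [Group G] : Prop :=
  ∀ K : Subgroup G, K.FG → Group.IsNilpotent K

/-- A group is radical if it has an ascending series of normal subgroups `N α`, `α ≤ γ`, with
`N 0 = 1`, `N γ = G`, unions at limit ordinals and locally nilpotent factors. -/
def IsRadical (G : Type u) [Group G] : Prop :=
  ∃ (γ : Ordinal.{v}) (N : Ordinal.{v} → Subgroup G), N 0 = ⊥ ∧ N γ = ⊤ ∧
    (∀ α ≤ γ, (N α).Normal) ∧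
    (∀ α β, α ≤ β → β ≤ γ → N α ≤ N β) ∧
    (∀ μ ≤ γ, Order.IsSuccLimit μ → (N μ : Set G) = ⋃ α ∈ Set.Iio μ, (N α : Set G)) ∧
    (∀ α < γ, ∃ _ : ((N α).subgroupOf (N (Order.succ α))).Normal,
      IsLocallyNilpotent (N (Order.succ α) ⧸ (N α).subgroupOf (N (Order.succ α))))

/-! ### polycyclic groups -/

/-- solvable with all subgroups finitely generated -/
def SF (G : Type u) [Group G] : Prop := Group.IsSolvable G ∧ ∀ K : Subgroup G, K.FG

section

variable {G : Type u} [Group G]

theorem fg_map' {H : Type v} [Group H] (f : G →* H) {K : Subgroup G} (h : K.FG) :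
    (K.map f).FG := by
  rw [← Group.fg_iff_subgroup_fg] at h ⊢
  exact Group.fg_of_surjective (f.subgroupMap_surjective K)

theorem fg_of_map' {H : Type v} [Group H] (f : G →* H) (hf : Function.Injective f)
    {K : Subgroup G} (h : (K.map f).FG) : K.FG := by
  rw [← Group.fg_iff_subgroup_fg] at h ⊢
  exact Group.fg_of_surjective (f := (K.equivMapOfInjective f hf).symm.toMonoidHom)
    (K.equivMapOfInjective f hf).symm.surjective

theorem exists_fg_lift' {H : Type v} [Group H] (f : G →* H) (K : Subgroup G)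
    (h : (K.map f).FG) : ∃ L : Subgroup G, L ≤ K ∧ L.FG ∧ L.map f = K.map f := by
  classical
  obtain ⟨T, hT⟩ := h
  have h1 : (T : Set H) ⊆ f '' (K : Set G) := by
    intro t ht
    have h2 : t ∈ K.map f := by
      rw [← hT]
      exact Subgroup.subset_closure ht
    exact h2
  obtain ⟨S, hS, hS2⟩ := Finset.subset_set_image_iff.1 h1
  refine ⟨Subgroup.closure (S : Set G), (Subgroup.closure_le K).2 hS, ⟨S, rfl⟩, ?_⟩
  rw [← hT, ← hS2, MonoidHom.map_closure, Finset.coe_image]

theorem SF.map {H : Type v} [Group H] (h : SF G) (f : G →* H)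
    (hf : Function.Surjective f) : SF H := by
  have : Group.IsSolvable G := h.1
  refine ⟨Group.isSolvable_of_surjective hf, fun K => ?_⟩
  have h1 := fg_map' f (h.2 (K.comap f))
  rwa [Subgroup.map_comap_eq_self_of_surjective hf] at h1

theorem SF.ext (N : Subgroup G) [N.Normal] (h1 : SF N)
    (h2 : SF (G ⧸ N)) : SF G := by
  have : Group.IsSolvable N := h1.1
  have : Group.IsSolvable (G ⧸ N) := h2.1
  refine ⟨Group.isSolvable_of_ker_le_range N.subtype (QuotientGroup.mk' N) (by
    rw [QuotientGroup.ker_mk', Subgroup.range_subtype]), fun K => ?_⟩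
  obtain ⟨L, hL1, hL2, hL3⟩ := exists_fg_lift' (QuotientGroup.mk' N) K (h2.2 _)
  have h3 : (K ⊓ N).FG := by
    rw [← Subgroup.subgroupOf_map_subtype]
    exact fg_map' _ (h1.2 _)
  have h4 : K = L ⊔ (K ⊓ N) := by
    apply le_antisymm
    · intro k hk
      have h5 : QuotientGroup.mk' N k ∈ L.map (QuotientGroup.mk' N) := by
        rw [hL3]
        exact Subgroup.mem_map_of_mem _ hk
      obtain ⟨l, hl, hlk⟩ := Subgroup.mem_map.1 h5
      have h6 : l⁻¹ * k ∈ N := by
        have h7 : ((l : G) : G ⧸ N) = ((k : G) : G ⧸ N) := hlk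
        exact QuotientGroup.eq.1 h7
      have h7 : l⁻¹ * k ∈ K := K.mul_mem (K.inv_mem (hL1 hl)) hk
      have h8 : k = l * (l⁻¹ * k) := by group
      rw [h8]
      exact Subgroup.mul_mem_sup hl ⟨h7, h6⟩
    · exact sup_le hL1 inf_le_left
  rw [h4]
  exact hL2.sup h3

theorem SF.of_cyclic (h : IsCyclic G) : SF G := by
  refine ⟨?_, fun K => ?_⟩
  · let _ := IsCyclic.commGroup (α := G)
    exact Group.isSolvable_of_comm (fun a b => mul_comm a b)
  · have : IsCyclic K := inferInstance
    obtain ⟨g, hg⟩ := this.exists_generator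
    refine ⟨{(g : G)}, ?_⟩
    apply le_antisymm
    · rw [Subgroup.closure_le]
      intro x hx
      have : x = (g : G) := by simpa using hx
      rw [this]
      exact g.2
    · intro x hx
      obtain ⟨m, hm⟩ := Subgroup.mem_zpowers_iff.1 (hg ⟨x, hx⟩)
      have h1 : (g : G) ^ m = x := by
        have := congrArg Subtype.val hm
        simpa using this
      rw [← h1]
      exact Subgroup.zpow_mem _ (Subgroup.subset_closure (by simp)) m

theorem SF.bot : SF (⊥ : Subgroup G) := by
  apply SF.of_cyclic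
  infer_instance

theorem SF.of_poly (h : IsPolycyclic G) : SF G := by
  obtain ⟨n, H, h0, hn, hs⟩ := h
  have key : ∀ i, i ≤ n → SF (H i) := by
    intro i
    induction i with
    | zero => intro _; rw [h0]; exact SF.bot
    | succ i ih =>
      intro hi
      obtain ⟨h1, h2, h3⟩ := hs i (by omega)
      have h4 : SF ((H i).subgroupOf (H (i + 1))) :=
        (ih (by omega)).map (Subgroup.subgroupOfEquivOfLe h1).symm.toMonoidHom
          (Subgroup.subgroupOfEquivOfLe h1).symm.surjective
      exact SF.ext _ h4 (SF.of_cyclic h3)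
  have h5 := key n le_rfl
  rw [hn] at h5
  exact h5.map (Subgroup.topEquiv (G := G)).toMonoidHom (Subgroup.topEquiv (G := G)).surjective

/-! ### from the abstract form to a series -/

theorem chain_of (a b : Subgroup G) (h : Relation.ReflTransGen CyclicStep a b) :
    ∃ (n : ℕ) (H : ℕ → Subgroup G), H 0 = a ∧ H n = b ∧ ∀ i < n, CyclicStep (H i) (H (i + 1)) := by
  induction h with
  | refl => exact ⟨0, fun _ => a, rfl, rfl, fun i hi => absurd hi (Nat.not_lt_zero i)⟩
  | @tail b c _ hbc ih =>
    obtain ⟨n, H, h0, hn, hs⟩ := ih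
    refine ⟨n + 1, fun i => if i ≤ n then H i else c, ?_, ?_, ?_⟩
    · simp [h0]
    · simp
    · intro i hi
      by_cases h1 : i + 1 ≤ n
      · have h2 : i ≤ n := by omega
        simp only [h1, h2, if_true]
        exact hs i (by omega)
      · have h2 : i = n := by omega
        subst h2
        simp only [h1, le_refl, if_true, if_false]
        rw [hn]
        exact hbc

theorem step_sup (D E : Subgroup G) (hE : E = ⁅D, D⁆) (M : Subgroup G) (hM : E ≤ M)
    (hMD : M ≤ D) (t : G) (ht : t ∈ D) : CyclicStep M (M ⊔ Subgroup.zpowers t) := by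
  have hn : ∀ x ∈ D, ∀ y ∈ M, x * y * x⁻¹ ∈ M := by
    intro x hx y hy
    have h1 : x * y * x⁻¹ * y⁻¹ ∈ E := by
      rw [hE]
      exact Subgroup.commutator_mem_commutator hx (hMD hy)
    have h2 := M.mul_mem (hM h1) hy
    rwa [inv_mul_cancel_right] at h2
  have hle : M ⊔ Subgroup.zpowers t ≤ D := sup_le hMD (by
    rw [Subgroup.zpowers_le]; exact ht)
  have hnorm : (M.subgroupOf (M ⊔ Subgroup.zpowers t)).Normal := by
    constructor
    intro y hy x
    rw [Subgroup.mem_subgroupOf] at hy ⊢
    exact hn x.1 (hle x.2) y.1 hy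
  refine ⟨le_sup_left, hnorm, ?_⟩
  have ht' : t ∈ M ⊔ Subgroup.zpowers t :=
    (le_sup_right : Subgroup.zpowers t ≤ _) (Subgroup.mem_zpowers t)
  refine ⟨⟨((⟨t, ht'⟩ : ↥(M ⊔ Subgroup.zpowers t)) :
    ↥(M ⊔ Subgroup.zpowers t) ⧸ M.subgroupOf (M ⊔ Subgroup.zpowers t)), ?_⟩⟩
  intro q
  obtain ⟨x, rfl⟩ := QuotientGroup.mk_surjective q
  let S : Subgroup G :=
    { carrier := {x | ∃ m : ℤ, (t ^ m)⁻¹ * x ∈ M}
      mul_mem' := by
        rintro a b ⟨m, hm⟩ ⟨k, hk⟩
        refine ⟨m + k, ?_⟩
        have h1 := hn ((t ^ k)⁻¹) (D.inv_mem (D.zpow_mem ht k)) _ hm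
        have h2 := M.mul_mem h1 hk
        have h3 : (t ^ (m + k))⁻¹ * (a * b) =
            (t ^ k)⁻¹ * ((t ^ m)⁻¹ * a) * ((t ^ k)⁻¹)⁻¹ * ((t ^ k)⁻¹ * b) := by
          rw [zpow_add]
          group
        rw [h3]
        exact h2
      one_mem' := ⟨0, by simp [M.one_mem]⟩
      inv_mem' := by
        rintro a ⟨m, hm⟩
        refine ⟨-m, ?_⟩
        have h1 := hn (t ^ m) (D.zpow_mem ht m) _ (M.inv_mem hm)
        have h3 : (t ^ (-m))⁻¹ * a⁻¹ = t ^ m * ((t ^ m)⁻¹ * a)⁻¹ * (t ^ m)⁻¹ := by
          rw [zpow_neg]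
          group
        rw [h3]
        exact h1 }
  have hS : M ⊔ Subgroup.zpowers t ≤ S := by
    refine sup_le ?_ ?_
    · intro y hy
      exact ⟨0, by simpa using hy⟩
    · rw [Subgroup.zpowers_le]
      exact ⟨1, by simp [M.one_mem]⟩
  obtain ⟨m, hm⟩ := hS x.2
  refine Subgroup.mem_zpowers_iff.2 ⟨m, ?_⟩
  rw [← QuotientGroup.mk_zpow]
  apply QuotientGroup.eq.2
  rw [Subgroup.mem_subgroupOf]
  simpa using hm

theorem chain_fg (D E : Subgroup G) (hE : E = ⁅D, D⁆) (T : Finset G) :
    (T : Set G) ⊆ D → Relation.ReflTransGen CyclicStep E (E ⊔ Subgroup.closure (T : Set G)) := by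
  classical
  have hED : E ≤ D := by
    rw [hE, Subgroup.commutator_le]
    intro a ha b hb
    exact D.mul_mem (D.mul_mem (D.mul_mem ha hb) (D.inv_mem ha)) (D.inv_mem hb)
  induction T using Finset.induction_on with
  | empty =>
    intro _
    simp only [Finset.coe_empty, Subgroup.closure_empty, sup_bot_eq]
    exact Relation.ReflTransGen.refl
  | insert t T _ ih =>
    intro hT
    rw [Finset.coe_insert] at hT ⊢
    have h1 := ih ((Set.subset_insert _ _).trans hT)
    have h2 := step_sup D E hE (E ⊔ Subgroup.closure (T : Set G)) le_sup_left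
      (sup_le hED ((Subgroup.closure_le D).2 ((Set.subset_insert _ _).trans hT))) t
      (hT (Set.mem_insert _ _))
    have h3 : E ⊔ Subgroup.closure (insert t (T : Set G)) =
        E ⊔ Subgroup.closure (T : Set G) ⊔ Subgroup.zpowers t := by
      rw [Set.insert_eq, Subgroup.closure_union, Subgroup.zpowers_eq_closure, sup_assoc,
        sup_comm (Subgroup.closure {t})]
    rw [h3]
    exact h1.tail h2

theorem poly_of_SF (h : SF G) : IsPolycyclic G := by
  apply chain_of
  obtain ⟨n, hn⟩ := h.1.solvable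
  have key : ∀ i, Relation.ReflTransGen CyclicStep (derivedSeries G i) (⊤ : Subgroup G) := by
    intro i
    induction i with
    | zero => exact Relation.ReflTransGen.refl
    | succ i ih =>
      obtain ⟨T, hT⟩ := h.2 (derivedSeries G i)
      have h1 := chain_fg (derivedSeries G i) (derivedSeries G (i + 1)) rfl T (by
        rw [← hT]; exact Subgroup.subset_closure)
      have h2 : derivedSeries G (i + 1) ⊔ Subgroup.closure (T : Set G) = derivedSeries G i := by
        rw [hT]
        apply sup_eq_right.2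
        rw [derivedSeries_succ, Subgroup.commutator_le]
        intro a ha b hb
        exact Subgroup.mul_mem _ (Subgroup.mul_mem _ (Subgroup.mul_mem _ ha hb)
          (Subgroup.inv_mem _ ha)) (Subgroup.inv_mem _ hb)
      rw [h2] at h1
      exact h1.trans ih
  have h1 := key n
  rwa [hn] at h1

/-! ### radical groups -/

theorem nil_of {P : Type u} [Group P] (hln : IsLocallyNilpotent P) {R : Type u} [Group R]
    (φ : P →* R) (s : Set R) (hs : s.Finite) (h : ∀ x ∈ s, ∃ p, φ p = x) :
    Group.IsNilpotent (Subgroup.closure s) := by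
  classical
  choose! g hg using h
  have h1 : Group.IsNilpotent (Subgroup.closure ((hs.toFinset.image g : Finset P) : Set P)) :=
    hln _ ⟨_, rfl⟩
  have h2 : Subgroup.closure s =
      (Subgroup.closure ((hs.toFinset.image g : Finset P) : Set P)).map φ := by
    rw [MonoidHom.map_closure]
    congr 1
    ext q
    constructor
    · intro hq
      exact ⟨g q, by simpa using ⟨q, hq, rfl⟩, hg q hq⟩
    · rintro ⟨w, hw, rfl⟩
      simp only [Finset.coe_image, Set.Finite.coe_toFinset] at hw
      obtain ⟨m, hm, rfl⟩ := hw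
      rwa [hg m hm]
  rw [h2]
  exact Group.nilpotent_of_surjective (φ.subgroupMap _) (φ.subgroupMap_surjective _)

theorem radical_step (h : IsRadical.{u, v} G) (N : Subgroup G) [hN : N.Normal] (hNt : N ≠ ⊤) :
    ∃ M : Subgroup G, M.Normal ∧ N < M ∧
        ∀ s : Finset G, (↑s : Set G) ⊆ (M : Set G) →
          Group.IsNilpotent
            (Subgroup.map (QuotientGroup.mk' N) (Subgroup.closure (↑s : Set G))) := by
  classical
  obtain ⟨γ, F, F0, Fγ, Fn, Fm, Fl, Fs⟩ := h
  have hex : ∃ α, α ≤ γ ∧ ¬ F α ≤ N := by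
    refine ⟨γ, le_rfl, fun h1 => hNt ?_⟩
    rw [Fγ] at h1
    exact top_le_iff.1 h1
  obtain ⟨α, ⟨hα, hαN⟩, hmin⟩ : ∃ α, (α ≤ γ ∧ ¬ F α ≤ N) ∧ ∀ β < α, F β ≤ N := by
    obtain ⟨α, h1, h2⟩ := WellFounded.has_min (wellFounded_lt (α := Ordinal.{v}))
      {α | α ≤ γ ∧ ¬ F α ≤ N} hex
    refine ⟨α, h1, fun β hβ => ?_⟩
    by_contra h3
    exact h2 β ⟨hβ.le.trans h1.1, h3⟩ hβ
  rcases Ordinal.zero_or_succ_or_isSuccLimit α with h0 | ⟨β, hβ⟩ | hlim
  · exact absurd (by rw [h0, F0]; exact bot_le) hαN
  · subst hβ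
    have hβN : F β ≤ N := hmin β (Order.lt_succ β)
    have hβγ : β < γ := (Order.lt_succ β).trans_le hα
    obtain ⟨hnorm, hln⟩ := Fs β hβγ
    have := Fn _ hα
    refine ⟨N ⊔ F (Order.succ β), inferInstance, lt_of_le_of_ne le_sup_left ?_, ?_⟩
    · intro h1
      apply hαN
      rw [h1]
      exact le_sup_right
    · intro s hs
      rw [MonoidHom.map_closure]
      refine nil_of hln (QuotientGroup.map ((F β).subgroupOf (F (Order.succ β))) N
        (F (Order.succ β)).subtype ?_) _ (s.finite_toSet.image _) ?_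
      · intro x hx
        rw [Subgroup.mem_subgroupOf] at hx
        exact hβN hx
      · rintro _ ⟨m, hm, rfl⟩
        obtain ⟨y, hy, z, hz, hyz⟩ := Subgroup.mem_sup_of_normal_left.1 (hs hm)
        refine ⟨QuotientGroup.mk ⟨z, hz⟩, ?_⟩
        show ((z : G) : G ⧸ N) = (m : G ⧸ N)
        rw [← hyz, QuotientGroup.mk_mul, (QuotientGroup.eq_one_iff y).2 hy, one_mul]
  · exfalso
    apply hαN
    intro x hx
    have h1 : x ∈ (F α : Set G) := hx
    rw [Fl α hα hlim] at h1
    simp only [Set.mem_iUnion] at h1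
    obtain ⟨β, hβ, hx2⟩ := h1
    exact hmin β hβ hx2

theorem countable_of_poly (h : IsPolycyclic G) : Countable G := by
  obtain ⟨n, H, h0, hn, hs⟩ := h
  have key : ∀ i, i ≤ n → Countable (H i) := by
    intro i
    induction i with
    | zero => intro _; rw [h0]; infer_instance
    | succ i ih =>
      intro hi
      obtain ⟨h1, h2, h3⟩ := hs i (by omega)
      have h4 := ih (by omega)
      have h5 : Countable ((H i).subgroupOf (H (i + 1))) :=
        (Subgroup.subgroupOfEquivOfLe h1).injective.countable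
      have h6 : Countable (H (i + 1) ⧸ (H i).subgroupOf (H (i + 1))) := by
        obtain ⟨g, hg⟩ := h3.exists_generator
        have h7 : Function.Surjective (fun m : ℤ => g ^ m) := fun x => hg x
        exact h7.countable
      exact (Subgroup.groupEquivQuotientProdSubgroup
        (s := (H i).subgroupOf (H (i + 1)))).injective.countable
  have h5 := key n le_rfl
  rw [hn] at h5
  exact (Subgroup.topEquiv (G := G)).symm.injective.countable

theorem transfer {H : Type w} [Group H] (f : G ≃* H)
    (hst : ∀ (N : Subgroup G) [N.Normal], N ≠ ⊤ →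
      ∃ M : Subgroup G, M.Normal ∧ N < M ∧
        ∀ s : Finset G, (↑s : Set G) ⊆ (M : Set G) →
          Group.IsNilpotent
            (Subgroup.map (QuotientGroup.mk' N) (Subgroup.closure (↑s : Set G))))
    (N : Subgroup H) [N.Normal] (hN : N ≠ ⊤) :
      ∃ M : Subgroup H, M.Normal ∧ N < M ∧
        ∀ s : Finset H, (↑s : Set H) ⊆ (M : Set H) →
          Group.IsNilpotent
            (Subgroup.map (QuotientGroup.mk' N) (Subgroup.closure (↑s : Set H))) := by
  classical
  have hne : N.comap f.toMonoidHom ≠ ⊤ := by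
    intro h
    apply hN
    rw [eq_top_iff]
    intro x _
    have h1 : f.symm x ∈ N.comap f.toMonoidHom := by rw [h]; trivial
    have h2 : f (f.symm x) ∈ N := h1
    rwa [f.apply_symm_apply] at h2
  obtain ⟨M, hM, hlt, hnil⟩ := hst (N.comap f.toMonoidHom) hne
  refine ⟨M.map f.toMonoidHom, hM.map _ f.surjective, ?_, ?_⟩
  · rw [SetLike.lt_iff_le_and_exists] at hlt ⊢
    obtain ⟨h1, x, hx, hx2⟩ := hlt
    refine ⟨?_, f x, ⟨x, hx, rfl⟩, fun h => hx2 h⟩
    intro y hy
    refine ⟨f.symm y, h1 ?_, f.apply_symm_apply y⟩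
    show f (f.symm y) ∈ N
    rwa [f.apply_symm_apply]
  · intro s hs
    have h1 := hnil (s.image f.symm) (by
      intro x hx
      rw [Finset.coe_image] at hx
      obtain ⟨y, hy, rfl⟩ := hx
      obtain ⟨z, hz, hzy⟩ := hs hy
      have h2 : f.symm y = z := by
        rw [← hzy]
        exact f.symm_apply_apply z
      show f.symm y ∈ M
      rw [h2]
      exact hz)
    let ψ : G ⧸ N.comap f.toMonoidHom →* H ⧸ N :=
      QuotientGroup.map (N.comap f.toMonoidHom) N f.toMonoidHom le_rfl
    have h3 : Subgroup.map (QuotientGroup.mk' N) (Subgroup.closure (s : Set H)) =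
        (Subgroup.map (QuotientGroup.mk' (N.comap f.toMonoidHom))
          (Subgroup.closure ((s.image f.symm : Finset G) : Set G))).map ψ := by
      rw [MonoidHom.map_closure, MonoidHom.map_closure, MonoidHom.map_closure]
      congr 1
      rw [Finset.coe_image, Set.image_image, Set.image_image]
      apply Set.image_congr
      intro x _
      show (x : H ⧸ N) = ((f (f.symm x) : H) : H ⧸ N)
      rw [f.apply_symm_apply]
    rw [h3]
    exact Group.nilpotent_of_surjective (ψ.subgroupMap _) (ψ.subgroupMap_surjective _)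

end

end Pool.Agent.Results.MP_cad4a2_al.RadicalProduct

namespace Pool.Agent.Results.MP_cad4a2_al.RadicalProduct

/-- A radical group which is the product of two polycyclic subgroups is polycyclic. -/
theorem result (G : Type u) [Group G] (A B : Subgroup G) (hA : IsPolycyclic A)
    (hB : IsPolycyclic B) (hAB : ∀ g : G, ∃ a ∈ A, ∃ b ∈ B, g = a * b)
    (hG : IsRadical.{u, v} G) : IsPolycyclic G := by
  have cA := countable_of_poly hA
  have cB := countable_of_poly hB
  have cG : Countable G := by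
    have h1 : Function.Surjective (fun p : A × B => (p.1 : G) * (p.2 : G)) := by
      intro g
      obtain ⟨a, ha, b, hb, hg⟩ := hAB g
      exact ⟨(⟨a, ha⟩, ⟨b, hb⟩), hg.symm⟩
    exact h1.countable
  let e : G ≃* Shrink.{0} G := (Shrink.mulEquiv.{0} (α := G)).symm
  have hA' : SF (A.map e.toMonoidHom) :=
    (SF.of_poly hA).map (e.toMonoidHom.subgroupMap A) (e.toMonoidHom.subgroupMap_surjective A)
  have hB' : SF (B.map e.toMonoidHom) :=
    (SF.of_poly hB).map (e.toMonoidHom.subgroupMap B) (e.toMonoidHom.subgroupMap_surjective B)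
  have h := Pool.Agent.RPC.final (Shrink.{0} G) (A.map e.toMonoidHom) (B.map e.toMonoidHom)
    hA' hB' (by
      intro g
      obtain ⟨a, ha, b, hb, hg⟩ := hAB (e.symm g)
      refine ⟨e a, ⟨a, ha, rfl⟩, e b, ⟨b, hb, rfl⟩, ?_⟩
      rw [← map_mul, ← hg, e.apply_symm_apply])
    (transfer e (fun N _ hN => radical_step hG N hN))
  have h' : SF (Shrink.{0} G) := h
  exact poly_of_SF (h'.map e.symm.toMonoidHom e.symm.surjective)

end Pool.Agent.Results.MP_cad4a2_al.RadicalProduct
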